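import Pool.Graph.R_pool_sql_team_seeded_47a924f7.Results.MP_aa036a_co.FibonacciFormula
import Pool.Agent.KS6_13.SV.Joint

/-!
# Permutations which strongly avoid `321` and `1342`: the joint distribution of first letter and descents

The permutations of `n` letters are the `π : Perm (Fin n)`; letters and places are numbered from `0`.
-/

set_option autoImplicit false

namespace Pool.Agent.Results.MP_aa036a_co.FirstLetterAndDescents

open Equiv

/-- the permutation `π` has an occurrence of the pattern with the word `τ` -/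
def Contains {m n : ℕ} (τ : Fin m → ℕ) (π : Perm (Fin n)) : Prop :=
  ∃ f : Fin m → Fin n, StrictMono f ∧ ∀ j k, π (f j) < π (f k) ↔ τ j < τ k

/-- both `π` and `π²` avoid `321` and `1342` -/
def StronglyAvoids {n : ℕ} (π : Perm (Fin n)) : Prop :=
  (¬ Contains ![3, 2, 1] π ∧ ¬ Contains ![1, 3, 4, 2] π) ∧
    ¬ Contains ![3, 2, 1] (π * π) ∧ ¬ Contains ![1, 3, 4, 2] (π * π)

/-- the number of the descents of `π`, the `i` with `π (i + 1) < π i` -/
noncomputable def des {n : ℕ} (π : Perm (Fin n)) : ℕ :=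
  {i : ℕ | ∃ h : i + 1 < n, π ⟨i + 1, h⟩ < π ⟨i, by omega⟩}.ncard

open Pool.Agent.Results.MP_aa036a_co.FibonacciFormula (toN toN_lt toN_ge toN_inj mem_iff exists_toN)
open Pool.Agent.KS6_13.SV (T ds Ds)

lemma des_eq {n : ℕ} (π : Perm (Fin n)) : des π = ds (toN π) := by
  unfold des ds
  congr 1
  ext i
  show (∃ h : i + 1 < n, π ⟨i + 1, h⟩ < π ⟨i, by omega⟩) ↔ toN π (i + 1) < toN π i
  constructor
  · rintro ⟨h, h'⟩
    rw [toN_lt π h, toN_lt π (by omega)]
    exact h'
  · intro h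
    have h1 : i + 1 < n := Pool.Agent.KS6_13.SV.Ds_lt (fun i hi => toN_ge π hi) i h
    rw [toN_lt π h1, toN_lt π (by omega)] at h
    exact ⟨h1, h⟩

lemma first_eq {n : ℕ} (hn : 0 < n) (π : Perm (Fin n)) : toN π 0 = (π ⟨0, hn⟩ : ℕ) := toN_lt π hn

lemma card_eq {n : ℕ} (hn : 0 < n) (p : ℕ → ℕ → Prop) :
    Nat.card {π : Perm (Fin n) // StronglyAvoids π ∧ p (π ⟨0, hn⟩) (des π)} = (T n p).ncard := by
  have h : T n p = toN '' {π : Perm (Fin n) | StronglyAvoids π ∧ p (π ⟨0, hn⟩) (des π)} := by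
    ext σ
    constructor
    · rintro ⟨hσ, hp⟩
      obtain ⟨π, rfl⟩ := exists_toN hσ.1
      rw [first_eq hn, ← des_eq] at hp
      exact ⟨π, ⟨(mem_iff π).1 hσ, hp⟩, rfl⟩
    · rintro ⟨π, ⟨hπ, hp⟩, rfl⟩
      refine ⟨(mem_iff π).2 hπ, ?_⟩
      rw [first_eq hn, ← des_eq]
      exact hp
  rw [h, Set.ncard_image_of_injective _ toN_inj]
  rfl

/-- **The joint distribution of the first letter and of the number of descents** on the permutations of
`n ≥ 1` letters which strongly avoid `321` and `1342`; letters are numbered from `0`.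
(1) For `j < n` the number of these `π` with first letter `j` and `d` descents is `C(n-1-d, d)` if
`j = 0`, it is `0` if `j ≥ 1` and `d = 0`, and `C(n+1-j-d, d)` if `j, d ≥ 1`.
(2) For `j < n` the number of these `π` with first letter `j` is the Fibonacci number `F_n` if `j = 0`
and `F_{n+2-j} - 1` if `j ≥ 1`.
(3) The number of these `π` with `d` descents is `1` if `d = 0` and `C(n-1-d, d) + C(n+1-d, d+1)` if
`d ≥ 1`.
(4) The number of all these `π` is `2 F_{n+2} - n - 2`. -/
theorem result (n : ℕ) (hn : 0 < n) :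
    (∀ j d : ℕ, j < n →
      Nat.card {π : Perm (Fin n) // StronglyAvoids π ∧ (π ⟨0, hn⟩ : ℕ) = j ∧ des π = d} =
        if j = 0 then (n - 1 - d).choose d else if d = 0 then 0 else (n + 1 - j - d).choose d) ∧
    (∀ j : ℕ, j < n →
      Nat.card {π : Perm (Fin n) // StronglyAvoids π ∧ (π ⟨0, hn⟩ : ℕ) = j} =
        if j = 0 then Nat.fib n else Nat.fib (n + 2 - j) - 1) ∧
    (∀ d : ℕ, Nat.card {π : Perm (Fin n) // StronglyAvoids π ∧ des π = d} =
        if d = 0 then 1 else (n - 1 - d).choose d + (n + 1 - d).choose (d + 1)) ∧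
    (Nat.card {π : Perm (Fin n) // StronglyAvoids π} : ℤ) = 2 * (Nat.fib (n + 2) : ℤ) - n - 2 := by
  obtain ⟨m, rfl⟩ : ∃ m, n = m + 1 := ⟨n - 1, by omega⟩
  refine ⟨fun j d _ => ?_, fun j hj => ?_, fun d => ?_, ?_⟩
  · exact (card_eq hn fun a b => a = j ∧ b = d).trans ((Pool.Agent.KS6_13.SV.joint m).1 j d)
  · exact (card_eq hn fun a _ => a = j).trans ((Pool.Agent.KS6_13.SV.first m).1 j hj)
  · exact (card_eq hn fun _ b => b = d).trans ((Pool.Agent.KS6_13.SV.descents m).1 d)
  · exact Pool.Agent.Results.MP_aa036a_co.FibonacciFormula.result (m + 1) (by omega)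

end Pool.Agent.Results.MP_aa036a_co.FirstLetterAndDescents
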